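import Mathlib

set_option autoImplicit false

open Subgroup

namespace Pool.B7h12

universe u

/-- The derivations `δ : G → M` vanishing on the set `S`. -/
def Der (G M : Type*) [Group G] [AddCommGroup M] [DistribMulAction G M] (S : Set G) :
    Set (G → M) :=
  {δ | (∀ g h, δ (g * h) = δ g + g • δ h) ∧ ∀ g ∈ S, δ g = 0}

section basics

variable {G M : Type*} [Group G] [AddCommGroup M] [DistribMulAction G M]

lemma Der.mul {S : Set G} {δ : G → M} (h : δ ∈ Der G M S) (g k : G) :
    δ (g * k) = δ g + g • δ k := h.1 g k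

lemma Der.one {S : Set G} {δ : G → M} (h : δ ∈ Der G M S) : δ 1 = 0 := by
  have := h.1 1 1
  simpa using this

lemma Der.inv {S : Set G} {δ : G → M} (h : δ ∈ Der G M S) (g : G) :
    δ g⁻¹ = - (g⁻¹ • δ g) := by
  have h1 := h.1 g⁻¹ g
  rw [inv_mul_cancel, Der.one h] at h1
  exact eq_neg_of_add_eq_zero_left h1.symm

lemma Der.mono {S T : Set G} (hST : S ⊆ T) {δ : G → M} (h : δ ∈ Der G M T) : δ ∈ Der G M S :=
  ⟨h.1, fun g hg => h.2 g (hST hg)⟩

/-- the kernel of a derivation is a subgroup -/
def kerDer (δ : G → M) (h : ∀ g k, δ (g * k) = δ g + g • δ k) : Subgroup G where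
  carrier := {g | δ g = 0}
  mul_mem' := by
    intro a b ha hb
    simp only [Set.mem_ofPred_eq] at *
    rw [h, ha, hb]; simp
  one_mem' := by
    have := h 1 1
    simpa using this
  inv_mem' := by
    intro a ha
    simp only [Set.mem_ofPred_eq] at *
    have h1 := h a⁻¹ a
    have h2 := h 1 1
    simp at h2
    rw [inv_mul_cancel, ha, h2] at h1
    simpa using h1.symm

lemma Der.finite_of_index {S : Set G} {K : Subgroup G} (hK : K.index ≠ 0) (hKS : (K : Set G) ⊆ S)
    [Finite M] : (Der G M S).Finite := by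
  classical
  have : K.FiniteIndex := ⟨hK⟩
  have : Finite (G ⧸ K) := inferInstance
  refine Set.Finite.of_finite_image (f := fun δ : G → M => fun q : G ⧸ K => δ q.out)
    (Set.toFinite _) ?_
  intro δ hδ ε hε heq
  funext g
  have h1 : δ ((g : G ⧸ K).out) = ε ((g : G ⧸ K).out) := congrFun heq (g : G ⧸ K)
  obtain ⟨k, hk⟩ := QuotientGroup.mk_out_eq_mul K g
  rw [hk, hδ.1, hε.1, hδ.2 _ (hKS k.2), hε.2 _ (hKS k.2)] at h1
  simpa using h1

end basics

/-- `M` is a simple module over the group `G`. -/
def IsSimpleMod (G M : Type*) [Group G] [AddCommGroup M] [DistribMulAction G M] : Prop :=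
  ∀ S : AddSubgroup M, (∀ (g : G), ∀ m ∈ S, g • m ∈ S) → S = ⊥ ∨ S = ⊤

/-- Data of a chief factor between `N₀` and `N` in the group `G`: a normal subgroup `N₁` with
`N₀ ≤ N₁ ≤ N` and a surjective equivariant homomorphism of `N₁` onto the simple module `M`
which kills `N₀`. -/
structure ChiefFactor (G M : Type*) [Group G] [AddCommGroup M] [DistribMulAction G M]
    (N₀ N : Subgroup G) where
  N₁ : Subgroup G
  normal : N₁.Normal
  le : N₀ ≤ N₁
  le' : N₁ ≤ N
  φ : N₁ →* Multiplicative M
  surj : Function.Surjective φ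
  ker : ∀ n : N₁, (n : G) ∈ N₀ → φ n = 1
  conj : ∀ (g : G) (n : N₁), φ ⟨g * n * g⁻¹, normal.conj_mem _ n.2 g⟩
    = Multiplicative.ofAdd (g • Multiplicative.toAdd (φ n))
  simple : IsSimpleMod G M
  nontriv : Nontrivial M

/-- the hypothesis of the relative Gaschuetz lemma for one chief factor -/
def ChiefFactor.Good {G M : Type*} [Group G] [AddCommGroup M] [DistribMulAction G M]
    {N₀ N : Subgroup G} (c : ChiefFactor G M N₀ N) (P : Subgroup G) (t : ℕ) : Prop :=
  (∀ m : M, ∃ n : c.N₁, (n : G) ∈ P ∧ c.φ n = Multiplicative.ofAdd m) ∨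
    (Der G M ((P : Set G) ∪ N₀)).ncard ≤ Nat.card M ^ t

/-- One step of the relative Gaschuetz lemma. -/
theorem rgl_step {G M : Type*} [Group G] [AddCommGroup M] [DistribMulAction G M] [Finite M]
    {N₀ N N₂ : Subgroup G} (hN : N.Normal) (h02 : N₀ ≤ N₂)
    (hfi : N₀.index ≠ 0)
    (φ : N →* Multiplicative M) (hφ : Function.Surjective φ)
    (hker : ∀ n : N, (n : G) ∈ N₂ ↔ φ n = 1)
    (hconj : ∀ (g : G) (n : N), φ ⟨g * n * g⁻¹, hN.conj_mem _ n.2 g⟩
      = Multiplicative.ofAdd (g • Multiplicative.toAdd (φ n)))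
    (hsimple : IsSimpleMod G M) (hnt : Nontrivial M)
    (P : Subgroup G) {t : ℕ} (y : Fin t → G)
    (hy : closure ((P : Set G) ∪ N ∪ Set.range y) = ⊤)
    (hgood : (∀ m : M, ∃ n : N, (n : G) ∈ P ∧ φ n = Multiplicative.ofAdd m) ∨
      (Der G M ((P : Set G) ∪ N₀)).ncard ≤ Nat.card M ^ t) :
    ∃ n : Fin t → G, (∀ i, n i ∈ N) ∧
      closure ((P : Set G) ∪ N₂ ∪ Set.range (fun i => y i * n i)) = ⊤ := by
  classical
  -- lifts of elements of `M`
  choose lift hlift using hφ
  let tup : (Fin t → M) → Fin t → G := fun m i => (lift (Multiplicative.ofAdd (m i)) : G)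
  have htupN : ∀ m i, tup m i ∈ N := fun m i => (lift (Multiplicative.ofAdd (m i))).2
  let K : (Fin t → M) → Subgroup G := fun m =>
    closure ((P : Set G) ∪ N₂ ∪ Set.range (fun i => y i * tup m i))
  have hPK : ∀ m, P ≤ K m := fun m x hx => subset_closure (Or.inl (Or.inl hx))
  have hN2K : ∀ m, N₂ ≤ K m := fun m x hx => subset_closure (Or.inl (Or.inr hx))
  have hyK : ∀ m i, y i * tup m i ∈ K m := fun m i => subset_closure (Or.inr ⟨i, rfl⟩)
  -- `K m ⊔ N = ⊤`
  have hKN : ∀ m, K m ⊔ N = ⊤ := by
    intro m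
    rw [eq_top_iff, ← hy, closure_le]
    rintro x ((hx | hx) | ⟨i, rfl⟩)
    · exact (le_sup_left : K m ≤ K m ⊔ N) (hPK m hx)
    · exact (le_sup_right : N ≤ K m ⊔ N) hx
    · have h1 : y i * tup m i ∈ K m ⊔ N := (le_sup_left : K m ≤ K m ⊔ N) (hyK m i)
      have h2 : tup m i ∈ K m ⊔ N := (le_sup_right : N ≤ K m ⊔ N) (htupN m i)
      simpa using mul_mem h1 (inv_mem h2)
  have hdec : ∀ m (g : G), ∃ n ∈ N, ∃ k ∈ K m, g = n * k := by
    intro m g
    have : g ∈ N ⊔ K m := by rw [sup_comm, hKN]; trivial
    rw [Subgroup.mem_sup_of_normal_left] at this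
    obtain ⟨n, hn, k, hk, h⟩ := this
    exact ⟨n, hn, k, hk, h.symm⟩
  -- it is enough to find `m` with `N ≤ K m`
  suffices h : ∃ m, K m = ⊤ by
    obtain ⟨m, hm⟩ := h
    exact ⟨tup m, htupN m, hm⟩
  by_contra hno
  push Not at hno
  -- action of `N` on `M` is trivial
  have hNtriv : ∀ n : G, n ∈ N → ∀ m : M, n • m = m := by
    intro n hn m
    obtain ⟨x, hx⟩ : ∃ x : N, φ x = Multiplicative.ofAdd m := ⟨_, hlift _⟩
    have h1 := hconj n x
    have h2 : (⟨n * x * n⁻¹, hN.conj_mem _ x.2 n⟩ : N) = ⟨n, hn⟩ * x * ⟨n, hn⟩⁻¹ := by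
      ext; simp
    rw [h2, map_mul, map_mul, map_inv, mul_comm (φ ⟨n, hn⟩), mul_inv_cancel_right, hx] at h1
    simpa using (congrArg Multiplicative.toAdd h1).symm
  -- `K m ∩ N = N₂`
  have hKN2 : ∀ m (n : N), (n : G) ∈ K m → φ n = 1 := by
    intro m
    let S : AddSubgroup M :=
      { carrier := {v | ∃ n : N, (n : G) ∈ K m ∧ φ n = Multiplicative.ofAdd v}
        add_mem' := by
          rintro a b ⟨n, hn, hn'⟩ ⟨k, hk, hk'⟩
          exact ⟨n * k, mul_mem hn hk, by rw [map_mul, hn', hk', ofAdd_add]⟩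
        zero_mem' := ⟨1, one_mem _, by simp⟩
        neg_mem' := by
          rintro a ⟨n, hn, hn'⟩
          exact ⟨n⁻¹, inv_mem hn, by rw [map_inv, hn', ofAdd_neg]⟩ }
    have hS : ∀ (g : G), ∀ v ∈ S, g • v ∈ S := by
      rintro g v ⟨n, hn, hnv⟩
      obtain ⟨n', hn', k, hk, rfl⟩ := hdec m g
      have hkv : k • v ∈ S := by
        refine ⟨⟨k * n * k⁻¹, hN.conj_mem _ n.2 k⟩, ?_, ?_⟩
        · exact mul_mem (mul_mem hk hn) (inv_mem hk)
        · rw [hconj, hnv]; simp
      rw [mul_smul, hNtriv n' hn']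
      exact hkv
    rcases hsimple S hS with h | h
    · intro n hn
      have : Multiplicative.toAdd (φ n) ∈ S := ⟨n, hn, by simp⟩
      rw [h, AddSubgroup.mem_bot] at this
      exact Multiplicative.toAdd.injective (by simpa using this)
    · exfalso
      apply hno m
      rw [← hKN m]
      refine le_antisymm le_sup_left (sup_le le_rfl ?_)
      intro x hx
      have : Multiplicative.toAdd (φ ⟨x, hx⟩) ∈ S := by rw [h]; trivial
      obtain ⟨n, hn, hnx⟩ := this
      have h3 : φ (⟨x, hx⟩ * n⁻¹) = 1 := by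
        rw [map_mul, map_inv, hnx]; simp
      rw [← hker] at h3
      have h4 := mul_mem (hN2K m h3) hn
      simpa using h4
  rcases hgood with hcov | hcard
  · -- covered case
    obtain ⟨v, hv⟩ := exists_ne (0 : M)
    obtain ⟨n, hn, hn'⟩ := hcov v
    have := hKN2 0 n (hPK 0 hn)
    rw [hn'] at this
    exact hv (by simpa using this)
  · -- the derivation attached to `m`
    have hex : ∀ m : Fin t → M, ∀ g : G, ∃ v : M, ∃ n : N, φ n = Multiplicative.ofAdd v ∧
        ∃ k ∈ K m, g = n * k := by
      intro m g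
      obtain ⟨n, hn, k, hk, h⟩ := hdec m g
      exact ⟨Multiplicative.toAdd (φ ⟨n, hn⟩), ⟨n, hn⟩, by simp, k, hk, h⟩
    choose d hd using hex
    have hduniq : ∀ m g (n : N) (k : G), k ∈ K m → g = n * k → φ n = Multiplicative.ofAdd (d m g) := by
      intro m g n k hk hg
      obtain ⟨n', hn', k', hk', hg'⟩ := hd m g
      have h1 : ((n'⁻¹ * n : N) : G) ∈ K m := by
        have : ((n'⁻¹ * n : N) : G) = k' * k⁻¹ := by
          have : (n : G) * k = n' * k' := by rw [← hg, ← hg']
          push_cast
          rw [inv_mul_eq_iff_eq_mul, ← mul_assoc, eq_mul_inv_iff_mul_eq, this]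
        rw [this]
        exact mul_mem hk' (inv_mem hk)
      have h2 := hKN2 m _ h1
      rw [map_mul, map_inv, inv_mul_eq_one] at h2
      rw [← h2, hn']
    have hdDer : ∀ m, d m ∈ Der G M ((P : Set G) ∪ N₀) := by
      intro m
      refine ⟨?_, ?_⟩
      · intro g h
        obtain ⟨n, hn, k, hk, hg⟩ := hd m g
        obtain ⟨n', hn', k', hk', hh⟩ := hd m h
        have h1 := hduniq m (g * h) (n * ⟨k * n' * k⁻¹, hN.conj_mem _ n'.2 k⟩) (k * k')
          (mul_mem hk hk') (by rw [hg, hh]; push_cast; group)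
        rw [map_mul, hconj, hn, hn', ← ofAdd_add] at h1
        have h2 := Multiplicative.ofAdd.injective h1
        rw [← h2, hg, mul_smul, hNtriv _ n.2]
        simp
      · rintro g (hg | hg)
        · have := hduniq m g 1 g (hPK m hg) (by simp)
          simpa using this.symm
        · have := hduniq m g 1 g (hN2K m (h02 hg)) (by simp)
          simpa using this.symm
    have hdφ : ∀ m (n : N), d m n = Multiplicative.toAdd (φ n) := by
      intro m n
      have := hduniq m n n 1 (one_mem _) (by simp)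
      rw [this]; simp
    have hinj : Function.Injective d := by
      intro m m' hmm
      funext i
      have key : ∀ m'', d m'' (y i) + y i • m'' i = 0 := by
        intro m''
        have h1 : d m'' (y i * tup m'' i) = 0 := by
          have := hduniq m'' (y i * tup m'' i) 1 (y i * tup m'' i) (hyK m'' i) (by simp)
          simpa using this.symm
        rw [(hdDer m'').1] at h1
        have h2 : d m'' (tup m'' i) = m'' i := by
          rw [hdφ m'' (lift (Multiplicative.ofAdd (m'' i))), hlift]; simp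
        rw [h2] at h1
        exact h1
      have h1 := key m
      have h2 := key m'
      rw [hmm] at h1
      have h3 : y i • m i = y i • m' i := by
        have := h1.trans h2.symm
        exact add_left_cancel this
      exact smul_left_cancel _ h3
    -- count
    have hfin : (Der G M ((P : Set G) ∪ N₀)).Finite :=
      Der.finite_of_index hfi (Set.subset_union_right)
    have hsub : Set.range d ⊂ Der G M ((P : Set G) ∪ N₀) := by
      refine Set.ssubset_iff_subset_ne.mpr ⟨?_, ?_⟩
      · rintro _ ⟨m, rfl⟩; exact hdDer m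
      · intro heq
        have h0 : (fun _ => 0 : G → M) ∈ Der G M ((P : Set G) ∪ N₀) := ⟨by simp, by simp⟩
        rw [← heq] at h0
        obtain ⟨m, hm⟩ := h0
        obtain ⟨v, hv⟩ := exists_ne (0 : M)
        have h1 := hdφ m (lift (Multiplicative.ofAdd v))
        rw [hm, hlift] at h1
        exact hv (by simpa using h1.symm)
    have h1 := Set.ncard_lt_ncard hsub hfin
    have h2 : (Set.range d).ncard = Nat.card M ^ t := by
      rw [← Set.image_univ, Set.ncard_image_of_injective _ hinj, Set.ncard_univ, Nat.card_fun]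
      simp
    omega

/-- The conjugation action of `G` on (the additive version of) a commutative image of a normal
subgroup. -/
theorem rgl_aux {G : Type u} [Group G] [Group.IsSolvable G]
    {N₀ N : Subgroup G} (hN₀ : N₀.Normal) (hN : N.Normal) (h : N₀ < N)
    (hfi : N₀.index ≠ 0) :
    ∃ N₂ : Subgroup G, N₂.Normal ∧ N₀ ≤ N₂ ∧ N₂ < N ∧
      ∃ (M : Type u) (_ : AddCommGroup M) (_ : DistribMulAction G M) (_ : Finite M)
        (_ : Nontrivial M) (φ : N →* Multiplicative M),
        Function.Surjective φ ∧ (∀ n : N, (n : G) ∈ N₂ ↔ φ n = 1) ∧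
        (∀ (g : G) (n : N), φ ⟨g * n * g⁻¹, hN.conj_mem _ n.2 g⟩
          = Multiplicative.ofAdd (g • Multiplicative.toAdd (φ n))) ∧ IsSimpleMod G M := by
  classical
  -- choose `N₂` with minimal relative index
  have hfi' : ∀ K : Subgroup G, N₀ ≤ K → K.index ≠ 0 := fun K hK =>
    fun h0 => hfi (by
      have := Subgroup.index_dvd_of_le hK
      rw [h0] at this
      exact Nat.eq_zero_of_zero_dvd this)
  let S : Set ℕ := {n | ∃ K : Subgroup G, K.Normal ∧ N₀ ≤ K ∧ K < N ∧ K.index = n}
  have hS : S.Nonempty := ⟨N₀.index, N₀, hN₀, le_rfl, h, rfl⟩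
  obtain ⟨N₂, hN₂, h02, h2N, hidx⟩ := Nat.sInf_mem hS
  have hmax : ∀ K : Subgroup G, K.Normal → N₂ ≤ K → K < N → K = N₂ := by
    intro K hK h2K hKN
    by_contra hne
    have hlt : N₂ < K := lt_of_le_of_ne h2K (Ne.symm hne)
    have h1 : K.index < N₂.index := by
      have h3 := Subgroup.relIndex_mul_index h2K
      have h4 : N₂.relIndex K ≠ 1 := by
        intro h5
        rw [Subgroup.relIndex_eq_one] at h5
        exact hne (le_antisymm h5 h2K)
      have h5 : N₂.relIndex K ≠ 0 := by
        intro h5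
        rw [h5, zero_mul] at h3
        exact hfi' N₂ h02 h3.symm
      have h6 : 0 < K.index := Nat.pos_of_ne_zero (hfi' K (h02.trans h2K))
      have h7 : 2 ≤ N₂.relIndex K := by omega
      nlinarith
    have h2 : sInf S ≤ K.index := Nat.sInf_le ⟨K, hK, h02.trans h2K, hKN, rfl⟩
    omega
  refine ⟨N₂, hN₂, h02, h2N, ?_⟩
  -- the quotient
  let π : G →* G ⧸ N₂ := QuotientGroup.mk' N₂
  have hπ : Function.Surjective π := QuotientGroup.mk'_surjective N₂
  let Q : Subgroup (G ⧸ N₂) := N.map π
  have hQn : Q.Normal := hN.map π hπ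
  have hQnt : Nontrivial Q := by
    rw [Subgroup.nontrivial_iff_ne_bot]
    intro h0
    apply h2N.not_ge
    intro x hx
    have : π x ∈ Q := ⟨x, hx, rfl⟩
    rw [h0, Subgroup.mem_bot] at this
    exact (QuotientGroup.eq_one_iff x).mp this
  have hcomm : ⁅Q, Q⁆ = ⊥ := by
    have hsolvQ : Group.IsSolvable Q := inferInstance
    have h1 : commutator Q < ⊤ := Group.IsSolvable.commutator_lt_top_of_nontrivial Q
    have h3 : (commutator Q).map Q.subtype < Q := by
      refine lt_of_le_of_ne (Subgroup.map_subtype_le _) ?_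
      intro h4
      apply h1.ne
      have : (commutator Q).map Q.subtype = (⊤ : Subgroup Q).map Q.subtype := by
        rw [h4, ← MonoidHom.range_eq_map, Subgroup.range_subtype]
      exact Subgroup.map_injective Q.subtype_injective this
    have h4 : ⁅Q, Q⁆ = (commutator Q).map Q.subtype := by
      rw [commutator_def, Subgroup.map_commutator, ← MonoidHom.range_eq_map,
        Subgroup.range_subtype]
    have h5 : (⁅Q, Q⁆ : Subgroup (G ⧸ N₂)).Normal := Subgroup.commutator_normal Q Q
    have h6 := hmax ((⁅Q, Q⁆).comap π) (h5.comap π) (by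
      intro x hx
      have : π x = 1 := (QuotientGroup.eq_one_iff x).mpr hx
      show π x ∈ ⁅Q, Q⁆
      rw [this]; exact one_mem _) (by
      have h7 : N = Q.comap π := by
        rw [Subgroup.comap_map_eq, QuotientGroup.ker_mk']
        exact (sup_eq_left.mpr h2N.le).symm
      rw [h7, Subgroup.comap_lt_comap_of_surjective hπ, h4]
      exact h3)
    rw [eq_bot_iff]
    intro x hx
    obtain ⟨g, rfl⟩ := hπ x
    have : g ∈ (⁅Q, Q⁆).comap π := hx
    rw [h6] at this
    exact Subgroup.mem_bot.mpr ((QuotientGroup.eq_one_iff g).mpr this)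
  have hcomm' : ∀ a b : Q, a * b = b * a := by
    intro a b
    have := Subgroup.commutator_mem_commutator a.2 b.2
    rw [hcomm, Subgroup.mem_bot, commutatorElement_eq_one_iff_mul_comm] at this
    exact Subtype.ext this
  letI : CommGroup Q := { (inferInstance : Group Q) with mul_comm := hcomm' }
  letI act : DistribMulAction G (Additive Q) :=
    { smul := fun g x => Additive.ofMul ⟨π g * (Additive.toMul x : Q) * (π g)⁻¹,
        hQn.conj_mem _ (Additive.toMul x : Q).2 (π g)⟩
      one_smul := by
        intro x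
        apply Additive.toMul.injective
        apply Subtype.ext
        show π 1 * ((Additive.toMul x : Q) : G ⧸ N₂) * (π 1)⁻¹ = _
        simp
      mul_smul := by
        intro g h x
        apply Additive.toMul.injective
        apply Subtype.ext
        show π (g * h) * ((Additive.toMul x : Q) : G ⧸ N₂) * (π (g * h))⁻¹
          = π g * (π h * ((Additive.toMul x : Q) : G ⧸ N₂) * (π h)⁻¹) * (π g)⁻¹
        rw [map_mul]; group
      smul_zero := by
        intro g
        apply Additive.toMul.injective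
        apply Subtype.ext
        show π g * 1 * (π g)⁻¹ = 1
        simp
      smul_add := by
        intro g x y
        apply Additive.toMul.injective
        apply Subtype.ext
        show π g * (((Additive.toMul x : Q) : G ⧸ N₂) * ((Additive.toMul y : Q) : G ⧸ N₂)) * (π g)⁻¹
          = π g * ((Additive.toMul x : Q) : G ⧸ N₂) * (π g)⁻¹ *
            (π g * ((Additive.toMul y : Q) : G ⧸ N₂) * (π g)⁻¹)
        group }
  have hfinQ : Finite (Additive Q) := by
    have h1 : N₂.FiniteIndex := ⟨hfi' N₂ h02⟩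
    have h2 : Finite (G ⧸ N₂) := inferInstance
    exact inferInstanceAs (Finite Q)
  have hntQ : Nontrivial (Additive Q) := inferInstanceAs (Nontrivial Q)
  let φ : N →* Multiplicative (Additive Q) :=
    { toFun := fun n => Multiplicative.ofAdd (Additive.ofMul ⟨π n, ⟨n, n.2, rfl⟩⟩)
      map_one' := by
        apply Multiplicative.toAdd.injective
        apply Additive.toMul.injective
        apply Subtype.ext
        show π 1 = 1
        simp
      map_mul' := by
        intro a b
        apply Multiplicative.toAdd.injective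
        apply Additive.toMul.injective
        apply Subtype.ext
        show π (a * b) = π a * π b
        simp }
  have hφv : ∀ n : N, ((Additive.toMul (Multiplicative.toAdd (φ n)) : Q) : G ⧸ N₂) = π n :=
    fun n => rfl
  have hφs : Function.Surjective φ := by
    intro x
    obtain ⟨n, hn, hx⟩ := (Additive.toMul (Multiplicative.toAdd x) : Q).2
    refine ⟨⟨n, hn⟩, ?_⟩
    apply Multiplicative.toAdd.injective
    apply Additive.toMul.injective
    apply Subtype.ext
    rw [hφv]
    exact hx
  have hφker : ∀ n : N, (n : G) ∈ N₂ ↔ φ n = 1 := by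
    intro n
    rw [← QuotientGroup.eq_one_iff]
    constructor
    · intro h
      apply Multiplicative.toAdd.injective
      apply Additive.toMul.injective
      apply Subtype.ext
      rw [hφv]
      exact h
    · intro h
      have := hφv n
      rw [h] at this
      exact this.symm
  have hφc : ∀ (g : G) (n : N), φ ⟨g * n * g⁻¹, hN.conj_mem _ n.2 g⟩
      = Multiplicative.ofAdd (g • Multiplicative.toAdd (φ n)) := by
    intro g n
    apply Multiplicative.toAdd.injective
    apply Additive.toMul.injective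
    apply Subtype.ext
    rw [hφv]
    show π (g * n * g⁻¹) = π g * π n * (π g)⁻¹
    simp
  refine ⟨Additive Q, inferInstance, act, hfinQ, hntQ, φ, hφs, hφker, hφc, ?_⟩
  -- simplicity
  intro S hS
  let K : Subgroup G :=
    { carrier := {g | ∃ hg : g ∈ N, Multiplicative.toAdd (φ ⟨g, hg⟩) ∈ S}
      mul_mem' := by
        rintro a b ⟨ha, ha'⟩ ⟨hb, hb'⟩
        refine ⟨mul_mem ha hb, ?_⟩
        have : φ ⟨a * b, mul_mem ha hb⟩ = φ ⟨a, ha⟩ * φ ⟨b, hb⟩ := by
          rw [← map_mul]; rfl
        rw [this, toAdd_mul]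
        exact add_mem ha' hb'
      one_mem' := ⟨one_mem _, by
        have : φ ⟨1, one_mem _⟩ = 1 := map_one φ
        rw [this]; exact zero_mem S⟩
      inv_mem' := by
        rintro a ⟨ha, ha'⟩
        refine ⟨inv_mem ha, ?_⟩
        have : φ ⟨a⁻¹, inv_mem ha⟩ = (φ ⟨a, ha⟩)⁻¹ := by
          rw [← map_inv]; rfl
        rw [this, toAdd_inv]
        exact neg_mem ha' }
  have hKn : K.Normal := by
    constructor
    rintro n ⟨hn, hn'⟩ g
    refine ⟨hN.conj_mem _ hn g, ?_⟩
    have := hφc g ⟨n, hn⟩
    rw [this]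
    exact hS g _ hn'
  have h2K : N₂ ≤ K := by
    intro x hx
    refine ⟨h2N.le hx, ?_⟩
    rw [(hφker ⟨x, h2N.le hx⟩).mp hx]
    exact zero_mem S
  have hKN : K ≤ N := fun x hx => hx.1
  rcases hKN.eq_or_lt with hEq | hlt
  · right
    rw [eq_top_iff]
    rintro x -
    obtain ⟨n, hn⟩ := hφs (Multiplicative.ofAdd x)
    have : (n : G) ∈ K := by rw [hEq]; exact n.2
    obtain ⟨h1, h2⟩ := this
    rw [show (⟨(n : G), h1⟩ : N) = n from rfl, hn] at h2
    exact h2
  · left
    have := hmax K hKn h2K hlt
    rw [eq_bot_iff]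
    intro x hx
    obtain ⟨n, hn⟩ := hφs (Multiplicative.ofAdd x)
    have h1 : (n : G) ∈ K := ⟨n.2, by
      rw [show (⟨(n : G), n.2⟩ : N) = n from rfl, hn]; exact hx⟩
    rw [this, hφker, hn] at h1
    exact AddSubgroup.mem_bot.mpr (Multiplicative.ofAdd.injective h1)

/-- **Relative Gaschuetz lemma**, lifting form.  `N₀ ≤ N` are normal subgroups of the soluble group
`G`, `N₀` has finite index, and `P` together with `y 0, …, y (t-1)` generates `G` modulo `N`.
If every chief factor `M` of `G` between `N₀` and `N` is either covered by `P`, or has at most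
`|M| ^ t` derivations vanishing on `P` and `N₀`, then the `y i` can be multiplied by elements of
`N` so that together with `P` they generate `G` modulo `N₀`. -/
theorem rgl {G : Type u} [Group G] [Group.IsSolvable G]
    {N₀ N : Subgroup G} (hN₀ : N₀.Normal) (hN : N.Normal) (h0N : N₀ ≤ N)
    (hfi : N₀.index ≠ 0) (P : Subgroup G) {t : ℕ} (y : Fin t → G)
    (hy : closure ((P : Set G) ∪ N ∪ Set.range y) = ⊤)
    (hgood : ∀ (M : Type u) [AddCommGroup M] [DistribMulAction G M] [Finite M]
      (c : ChiefFactor G M N₀ N), c.Good P t) :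
    ∃ n : Fin t → G, (∀ i, n i ∈ N) ∧
      closure ((P : Set G) ∪ N₀ ∪ Set.range (fun i => y i * n i)) = ⊤ := by
  classical
  -- induction on the index of `N₀` relative to `N`
  suffices H : ∀ k : ℕ, ∀ N : Subgroup G, N.Normal → N₀ ≤ N → N₀.relIndex N = k →
      ∀ y : Fin t → G, closure ((P : Set G) ∪ N ∪ Set.range y) = ⊤ →
      (∀ (M : Type u) [AddCommGroup M] [DistribMulAction G M] [Finite M]
        (c : ChiefFactor G M N₀ N), c.Good P t) →
      ∃ n : Fin t → G, (∀ i, n i ∈ N) ∧
        closure ((P : Set G) ∪ N₀ ∪ Set.range (fun i => y i * n i)) = ⊤ from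
    H _ N hN h0N rfl y hy hgood
  intro k
  induction k using Nat.strong_induction_on with
  | _ k ih =>
    intro N hN h0N hk y hy hgood
    rcases h0N.eq_or_lt with rfl | hlt
    · exact ⟨fun _ => 1, fun _ => one_mem _, by simpa using hy⟩
    · obtain ⟨N₂, hN₂, h02, h2N, M, iM, iA, iF, iN, φ, hφs, hφk, hφc, hsimp⟩ :=
        rgl_aux hN₀ hN hlt hfi
      let _ := iM; let _ := iA; have := iF; have := iN
      obtain ⟨n, hn, hgen⟩ := rgl_step hN h02 hfi φ hφs hφk hφc hsimp iN P y hy
        (hgood M
          { N₁ := N, normal := hN, le := h0N, le' := le_rfl, φ := φ, surj := hφs,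
            ker := fun n hn => (hφk n).mp (h02 hn), conj := hφc, simple := hsimp,
            nontriv := iN })
      have hrel : N₀.relIndex N₂ < k := by
        have h1 := Subgroup.relIndex_mul_relIndex N₀ N₂ N h02 h2N.le
        have h2 : N₂.relIndex N ≠ 1 := by
          intro h; rw [Subgroup.relIndex_eq_one] at h; exact h2N.not_ge h
        have h3 : N₀.relIndex N ≠ 0 := by
          intro h
          have := Subgroup.relIndex_mul_index h0N
          rw [h, zero_mul] at this
          exact hfi this.symm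
        have h4 : N₂.relIndex N ≠ 0 := by
          intro h; rw [h, mul_zero] at h1; exact h3 h1.symm
        have h5 : N₀.relIndex N₂ ≠ 0 := by
          intro h; rw [h, zero_mul] at h1; exact h3 h1.symm
        have h6 : 2 ≤ N₂.relIndex N := by omega
        have h7 : 0 < N₀.relIndex N₂ := Nat.pos_of_ne_zero h5
        rw [← hk, ← h1]
        nlinarith
      obtain ⟨n', hn', hgen'⟩ := ih _ hrel N₂ hN₂ h02 rfl (fun i => y i * n i) hgen (by
        intro M _ _ _ c
        exact hgood M { c with le' := c.le'.trans h2N.le })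
      refine ⟨fun i => n i * n' i, fun i => mul_mem (hn i) (h2N.le (hn' i)), ?_⟩
      simpa [mul_assoc] using hgen'

end Pool.B7h12
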